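import Pool.Agent.Helper10.DE.Geo.Defs

/-!
# Project DE, deterministic part: components of a pair of permutations

For a pair `f = (f₁, f₂)` the components are the orbits of `F f = f₂⁻¹ f₁`.
-/

noncomputable section

namespace DE

open Filter Topology

variable {d : ℕ}

/-- Pairs of permutations. -/
abbrev Pr (d : ℕ) := Equiv.Perm (Site d) × Equiv.Perm (Site d)

/-- The step map. -/
def F (f : Pr d) : Equiv.Perm (Site d) := f.2⁻¹ * f.1

/-- Same component. -/
def SC (f : Pr d) (a b : Site d) : Prop := (F f).SameCycle a b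

/-- The component of `a` is infinite. -/
def IsInf (f : Pr d) (a : Site d) : Prop := ∀ n : ℕ, 0 < n → (F f ^ n) a ≠ a

/-- Forward velocity. -/
def VOut (G : Equiv.Perm (Site d)) (a : Site d) (V : Fin d → ℝ) : Prop :=
  Tendsto (fun n : ℕ => (n : ℝ)⁻¹ • rv ((G ^ n) a - a)) atTop (𝓝 V)

/-- Backward velocity (of the same motion). -/
def VIn (G : Equiv.Perm (Site d)) (a : Site d) (V : Fin d → ℝ) : Prop :=
  Tendsto (fun n : ℕ => (n : ℝ)⁻¹ • rv (a - (G⁻¹ ^ n) a)) atTop (𝓝 V)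

/-- Every infinite component has equal forward and backward velocity. -/
def Good (f : Pr d) : Prop :=
  ∀ a, IsInf f a → ∃ V, VOut (F f) a V ∧ VIn (F f) a V

/-- The velocity up to sign. -/
def HasType (f : Pr d) (a : Site d) (V : Fin d → ℝ) : Prop :=
  VOut (F f) a V ∨ VOut (F f) a (-V)

/-- `g` is `f` with the two permutations exchanged on `A`. -/
def IsSwap (f g : Pr d) (A : Set (Site d)) : Prop :=
  (∀ a ∈ A, g.1 a = f.2 a ∧ g.2 a = f.1 a) ∧ (∀ a, a ∉ A → g.1 a = f.1 a ∧ g.2 a = f.2 a)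

/-- The class: closed under finite modifications and under reversing an infinite component, all
members good and with the reachability property. -/
structure Cls (D : Finset (Site d)) (K : ℕ) (C : Set (Pr d)) : Prop where
  isD : ∀ f ∈ C, IsD D f.1 ∧ IsD D f.2
  fin : ∀ f ∈ C, ∀ g : Pr d, IsD D g.1 → IsD D g.2 →
    {a | g.1 a ≠ f.1 a ∨ g.2 a ≠ f.2 a}.Finite → g ∈ C
  rev : ∀ f ∈ C, ∀ x, IsInf f x → ∀ g, IsSwap f g {a | SC f x a} → g ∈ C
  good : ∀ f ∈ C, Good f
  conn : ∀ f ∈ C, RCprop D K f.1 f.2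

/-- A simple cycle of components: entries `x i`, odd exits `y i`. -/
structure Cyc (D : Finset (Site d)) (f : Pr d) (n : ℕ) (x y : ℕ → Site d) : Prop where
  pos : 0 < n
  ne : ∀ i < n, ∀ i' < n, i ≠ i' → ¬ SC f (x i) (x i')
  out : ∀ i < n, SC f (x i) (f.1⁻¹ (y i))
  edge : ∀ i < n, y i - x ((i + 1) % n) ∈ D

/-- A simple cycle of components, traversed along the orientation: the exit of the component `i`
is `(F g ^ j i) (x i)`. -/
structure OCyc (D : Finset (Site d)) (g : Pr d) (n : ℕ) (x : ℕ → Site d) (j : ℕ → ℕ) : Prop where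
  pos : 0 < n
  ne : ∀ i < n, ∀ i' < n, i ≠ i' → ¬ SC g (x i) (x i')
  simple : ∀ i < n, ∀ k, 0 < k → k ≤ j i → (F g ^ k) (x i) ≠ x i
  edge : ∀ i < n, g.1 ((F g ^ j i) (x i)) - x ((i + 1) % n) ∈ D

/-- `a` is on one of the segments of the cycle. -/
def InSeg (g : Pr d) (n : ℕ) (x : ℕ → Site d) (j : ℕ → ℕ) (a : Site d) : Prop :=
  ∃ i < n, ∃ k ≤ j i, a = (F g ^ k) (x i)

/-- `h` arises from `g` by flipping the cycle. -/
structure IsFlip (g h : Pr d) (n : ℕ) (x : ℕ → Site d) (j : ℕ → ℕ) : Prop where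
  snd : h.2 = g.2
  entry : ∀ i < n, h.1 (x ((i + 1) % n)) = g.1 ((F g ^ j i) (x i))
  inner : ∀ i < n, ∀ k, 0 < k → k ≤ j i → h.1 ((F g ^ k) (x i)) = g.2 ((F g ^ k) (x i))
  off : ∀ a, ¬ InSeg g n x j a → h.1 a = g.1 a

/-- Edges of the digraph of components (orientation independent). -/
def CEdge (D : Finset (Site d)) (f : Pr d) (a b : Site d) : Prop :=
  ∃ y b', SC f a (f.1⁻¹ y) ∧ y - b' ∈ D ∧ SC f b' b

/-- Two infinite components of different type joined by `r` finite components. -/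
def Chain (D : Finset (Site d)) (f : Pr d) (r : ℕ) : Prop :=
  ∃ x y : ℕ → Site d, (∀ i ≤ r, SC f (x i) (f.1⁻¹ (y i)) ∧ y i - x (i + 1) ∈ D) ∧
    (∀ i ≤ r + 1, ∀ i' ≤ r + 1, i ≠ i' → ¬ SC f (x i) (x i')) ∧
    IsInf f (x 0) ∧ IsInf f (x (r + 1)) ∧ (∀ i, 1 ≤ i → i ≤ r → ¬ IsInf f (x i)) ∧
    ∀ V, HasType f (x 0) V → ¬ HasType f (x (r + 1)) V

end DE
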