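import Mathlib

/-!
# Project DE, deterministic part: definitions

`Site d = Z^d`.  A `D`-permutation is a permutation `f` of `Z^d` with `f a - a ∈ D`.
Even vertices = the domain copy, odd vertices = the range copy of `Z^d`.
-/

noncomputable section

namespace DE

/-- The lattice. -/
abbrev Site (d : ℕ) := Fin d → ℤ

variable {d : ℕ}

/-- The unit vectors. -/
def ev (i : Fin d) : Site d := Pi.single i 1

/-- A site as a real vector. -/
def rv (a : Site d) : Fin d → ℝ := fun i => (a i : ℝ)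

/-- The centred box. -/
def bx (c : Site d) (n : ℕ) : Finset (Site d) :=
  Fintype.piFinset fun i => Finset.Icc (c i - n) (c i + n)

/-- The corner box (side `m`, `m ^ d` sites). -/
def cube (x : Site d) (m : ℕ) : Finset (Site d) :=
  Fintype.piFinset fun i => Finset.Ico (x i) (x i + m)

/-- `f` is a `D`-permutation. -/
def IsD (D : Finset (Site d)) (f : Equiv.Perm (Site d)) : Prop := ∀ a, f a - a ∈ D

/-- The step map of the pair: `F = f₂⁻¹ ∘ f₁`. -/
def step (f₁ f₂ : Equiv.Perm (Site d)) : Equiv.Perm (Site d) := f₂⁻¹ * f₁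

/-- Every unit vector is a sum of at most `L` elements of `D - D`. -/
def Gen (D : Finset (Site d)) (L : ℕ) : Prop :=
  ∀ i : Fin d, ∃ l : List (Site d), l.length ≤ L ∧
    (∀ u ∈ l, ∃ v ∈ D, ∃ v' ∈ D, u = v - v') ∧ l.sum = ev i

/-- `D` and `D - D` are bounded by `K`. -/
def BdK (D : Finset (Site d)) (K : ℕ) : Prop :=
  1 ≤ K ∧ ∀ v ∈ D, ∀ i, |v i| ≤ K

/-- Number of points `x` of `Y` with `x + u ∉ Y`. -/
def bd (Y : Finset (Site d)) (u : Site d) : ℕ := (Y.filter fun x => x + u ∉ Y).card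

/-- The edges: from `a` to a vertex of the pair matched with `a`, then minus an element of `D`. -/
def DU (D : Finset (Site d)) (f₁ f₂ : Equiv.Perm (Site d)) (a b : Site d) : Prop :=
  f₁ a - b ∈ D ∨ f₂ a - b ∈ D

/-- `q` can be reached from `p` inside `Q` (by edges of `DU`). -/
def ConnIn (Q : Finset (Site d)) (D : Finset (Site d)) (f₁ f₂ : Equiv.Perm (Site d))
    (p q : Site d) : Prop :=
  Relation.ReflTransGen (fun a b => DU D f₁ f₂ a b ∧ a ∈ Q ∧ b ∈ Q) p q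

/-- The defect of the displacement sum on the corner box `cube x m`. -/
def defect (f₁ f₂ : Equiv.Perm (Site d)) (s : Fin d → ℝ) (m : ℕ) (x : Site d) :
    Fin d → ℝ :=
  ∑ a ∈ cube x m, (rv (f₁ a - a) + rv (f₂ a - a) - (2 : ℝ) • s)

/-- Typicality of the union with the slope `s`. -/
def Typ (s : Fin d → ℝ) (f₁ f₂ : Equiv.Perm (Site d)) : Prop :=
  ∀ ε : ℝ, 0 < ε → ∃ m : ℕ, 1 ≤ m ∧ ∀ R₀ : ℕ, ∃ R : ℕ, R₀ ≤ R ∧
    (((bx (0 : Site d) R).filter fun x => ε * (m : ℝ) ^ d < ‖defect f₁ f₂ s m x‖).card : ℝ)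
      ≤ ε * (R : ℝ) ^ d

/-- `s` is a convex combination of the elements of `D` with positive weights. -/
def IntPt (D : Finset (Site d)) (s : Fin d → ℝ) : Prop :=
  ∃ p : Site d → ℝ, (∀ v ∈ D, 0 < p v) ∧ ∑ v ∈ D, p v = 1 ∧ ∑ v ∈ D, p v • rv v = s

/-- The conclusion of the reachability lemma. -/
def RCprop (D : Finset (Site d)) (K : ℕ) (f₁ f₂ : Equiv.Perm (Site d)) : Prop :=
  ∀ (w : Fin d → ℝ) (η : ℝ), 0 < η → ∀ R₀ : ℕ, ∃ R : ℕ, R₀ ≤ R ∧ ∃ n : ℕ,
    (n : ℝ) ≤ η * R ∧ η * R ≤ 2 * n ∧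
    ∀ c : Site d, (∀ i, |(c i : ℝ) + R * w i| ≤ 1) →
      ∀ p ∈ bx c n, ∀ q ∈ bx c n, ConnIn (bx c (K * n)) D f₁ f₂ p q

/-- `S` is closed under the forward moves (`σ = true`) or the backward moves (`σ = false`) at the
odd vertices `y ∈ Q`. -/
def Mono (σ : Bool) (S : Finset (Site d)) (D : Finset (Site d)) (f : Equiv.Perm (Site d))
    (Q : Finset (Site d)) : Prop :=
  ∀ y ∈ Q, ∀ v ∈ D, (σ = true → f⁻¹ y ∈ S → y - v ∈ S) ∧ (σ = false → y - v ∈ S → f⁻¹ y ∈ S)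

/-- Squared Euclidean length of `y - c`, divided by `ρ ^ 2`. -/
def tt (c : Site d) (ρ : ℝ) (y : Site d) : ℝ := (∑ i, ((y i : ℝ) - c i) ^ 2) / ρ ^ 2

/-- The bump function. -/
def bump (c : Site d) (ρ : ℝ) (y : Site d) : ℝ := (max 0 (1 - tt c ρ y)) ^ 2

/-- Its gradient. -/
def grad (c : Site d) (ρ : ℝ) (y : Site d) (i : Fin d) : ℝ :=
  -4 * max 0 (1 - tt c ρ y) * ((y i : ℝ) - c i) / ρ ^ 2

/-- Number of sites of `Q` with `S` changing in direction `u`. -/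
def chg (S : Finset (Site d)) (Q : Finset (Site d)) (u : Site d) : ℕ :=
  (Q.filter fun x => ¬ (x ∈ S ↔ x + u ∈ S)).card

/-- The main term. -/
def mainA (S : Finset (Site d)) (c : Site d) (ρ : ℕ) (s : Fin d → ℝ)
    (f₁ f₂ : Equiv.Perm (Site d)) : ℝ :=
  ∑ a ∈ S ∩ bx c ρ, ∑ i, grad c ρ a i * (2 * s i - ((f₁ a i : ℝ) - a i) - ((f₂ a i : ℝ) - a i))

end DE
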